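import Pool.Agent.H568R3.PowIndep

/-!
# The determinant of the rigidity matrix in `ℓ_q` on a line of placements
-/

set_option autoImplicit false

namespace Pool.Agent.H568R3

open Filter Topology

/-- The signed power `|y|^{s-1} y`. -/
noncomputable def ph (s y : ℝ) : ℝ := |y| ^ (s - 1) * y

theorem ph_mul (s k w : ℝ) (hw : 0 < w) : ph s (k * w) = ph s k * w ^ s := by
  unfold ph
  rw [abs_mul, abs_of_pos hw, Real.mul_rpow (abs_nonneg k) hw.le]
  have h : w ^ s = w ^ (s - 1) * w := by
    rw [← Real.rpow_add_one hw.ne', sub_add_cancel]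
  rw [h]
  ring

theorem ph_ne_zero (s k : ℝ) (hk : k ≠ 0) : ph s k ≠ 0 :=
  mul_ne_zero (Real.rpow_pos_of_pos (abs_pos.2 hk) _).ne' hk

theorem two_pow_add {a b c e : ℕ} (hab : a < b) (hce : c < e)
    (h : (2 : ℝ) ^ a + 2 ^ b = 2 ^ c + 2 ^ e) : a = c ∧ b = e := by
  have h' : 2 ^ a + 2 ^ b = 2 ^ c + 2 ^ e := by exact_mod_cast h
  have key : ∀ {a b c e : ℕ}, a < b → c < e → 2 ^ a + 2 ^ b = 2 ^ c + 2 ^ e → ¬ b < e := by
    intro a b c e hab _ h hbe
    have h1 : 2 ^ a < 2 ^ b := Nat.pow_lt_pow_right (by norm_num) hab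
    have h2 : 2 ^ (b + 1) ≤ 2 ^ e := Nat.pow_le_pow_right (by norm_num) hbe
    rw [pow_succ] at h2
    have h3 : 0 < 2 ^ c := by positivity
    omega
  have hbe : b = e := le_antisymm (not_lt.1 (key hce hab h'.symm)) (not_lt.1 (key hab hce h'))
  subst hbe
  refine ⟨?_, rfl⟩
  have h4 : 2 ^ a = 2 ^ c := by omega
  exact Nat.pow_right_injective le_rfl h4

section

variable {A : Type*} [Fintype A]

/-- Numbers with different sums of pairs. -/
noncomputable def tt (a : A) : ℝ := 2 ^ ((Fintype.equivFin A a : Fin _) : ℕ)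

theorem tt_inj : Function.Injective (tt : A → ℝ) := by
  intro a b h
  unfold tt at h
  have h' : 2 ^ ((Fintype.equivFin A a : Fin _) : ℕ) = 2 ^ ((Fintype.equivFin A b : Fin _) : ℕ) := by
    exact_mod_cast h
  exact (Fintype.equivFin A).injective (Fin.ext (Nat.pow_right_injective le_rfl h'))

theorem tt_add_inj {a b c e : A} (hab : a ≠ b) (hce : c ≠ e) (h : tt a + tt b = tt c + tt e) :
    (a = c ∧ b = e) ∨ (a = e ∧ b = c) := by
  have hinj : ∀ {x y : A}, ((Fintype.equivFin A x : Fin _) : ℕ) = (Fintype.equivFin A y : Fin _) →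
      x = y := fun h => (Fintype.equivFin A).injective (Fin.ext h)
  have hab' : ((Fintype.equivFin A a : Fin _) : ℕ) ≠ (Fintype.equivFin A b : Fin _) :=
    fun h => hab (hinj h)
  have hce' : ((Fintype.equivFin A c : Fin _) : ℕ) ≠ (Fintype.equivFin A e : Fin _) :=
    fun h => hce (hinj h)
  unfold tt at h
  rcases lt_or_gt_of_ne hab' with h1 | h1 <;> rcases lt_or_gt_of_ne hce' with h2 | h2
  · obtain ⟨h3, h4⟩ := two_pow_add h1 h2 h
    exact Or.inl ⟨hinj h3, hinj h4⟩
  · obtain ⟨h3, h4⟩ := two_pow_add h1 h2 (h.trans (add_comm _ _))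
    exact Or.inr ⟨hinj h3, hinj h4⟩
  · obtain ⟨h3, h4⟩ := two_pow_add h1 h2 ((add_comm _ _).trans h)
    exact Or.inr ⟨hinj h4, hinj h3⟩
  · obtain ⟨h3, h4⟩ := two_pow_add h1 h2 ((add_comm _ _).trans (h.trans (add_comm _ _)))
    exact Or.inl ⟨hinj h4, hinj h3⟩

end

/-- Expansion of a determinant whose rows are sums. -/
theorem det_expand {R D : Type*} [Fintype R] [DecidableEq R] [Fintype D]
    (a : R → D → ℝ) (N : R → D → R → ℝ) :
    Matrix.det (Matrix.of fun r c => ∑ j, a r j * N r j c) =
      ∑ f : R → D, (∏ r, a r (f r)) * Matrix.det (Matrix.of fun r c => N r (f r) c) := by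
  classical
  have h1 : (Matrix.of fun r c => ∑ j, a r j * N r j c : Matrix R R ℝ) =
      fun r => ∑ j, a r j • N r j := by
    ext r c
    simp [Finset.sum_apply]
  have h2 : Matrix.det (fun r => ∑ j, a r j • N r j : Matrix R R ℝ) =
      Matrix.detRowAlternating (R := ℝ) (n := R) (fun r => ∑ j, a r j • N r j) := rfl
  rw [h1, h2]
  have h3 := (Matrix.detRowAlternating (R := ℝ) (n := R)).toMultilinearMap.map_sum
    (fun r j => a r j • N r j)
  refine h3.trans ?_
  apply Finset.sum_congr rfl
  intro f _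
  have h4 := (Matrix.detRowAlternating (R := ℝ) (n := R)).toMultilinearMap.map_smul_univ
    (fun r => a r (f r)) (fun r => N r (f r))
  refine h4.trans ?_
  rfl

section

variable {V : Type*} [Fintype V] [DecidableEq V] {v0 : V} {d : ℕ}

/-- The data of a rooted family of `d` spanning trees: parent functions and ranks. -/
structure Trees (v0 : V) (par : Fin d → V → V) (rk : Fin d → V → ℕ) : Prop where
  lt : ∀ i v, v ≠ v0 → rk i (par i v) < rk i v
  inj : ∀ i v j w, v ≠ v0 → w ≠ v0 → s(v, par i v) = s(w, par j w) → i = j ∧ v = w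

/-- The incidence vector of the row of `v` with parent `u`. -/
def bet (v u w : V) : ℝ := (if w = v then 1 else 0) - (if w = u then 1 else 0)

/-- The rows of the matrix of the trees. -/
def NN (par : Fin d → V → V) (r : Fin d × {v : V // v ≠ v0}) (j : Fin d)
    (c : Fin d × {v : V // v ≠ v0}) : ℝ :=
  if c.1 = j then bet r.2.1 (par r.1 r.2.1) c.2.1 else 0

/-- Extension by zero at the root. -/
def ext0 (u : Fin d × {v : V // v ≠ v0} → ℝ) (j : Fin d) (v : V) : ℝ :=
  if h : v ≠ v0 then u (j, ⟨v, h⟩) else 0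

theorem sum_NN (par : Fin d → V → V) (r : Fin d × {v : V // v ≠ v0}) (j : Fin d)
    (u : Fin d × {v : V // v ≠ v0} → ℝ) :
    ∑ c, NN par r j c * u c = ext0 u j r.2.1 - ext0 u j (par r.1 r.2.1) := by
  rw [Fintype.sum_prod_type, Finset.sum_eq_single j]
  · have h1 : ∀ w : V, ∑ x : {v : V // v ≠ v0}, (if x.1 = w then (1 : ℝ) else 0) * u (j, x) =
        ext0 u j w := by
      intro w
      unfold ext0
      split_ifs with hw
      · rw [Finset.sum_eq_single (⟨w, hw⟩ : {v : V // v ≠ v0})]
        · simp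
        · intro b _ hb
          rw [if_neg (fun h => hb (Subtype.ext h)), zero_mul]
        · intro h
          exact absurd (Finset.mem_univ _) h
      · apply Finset.sum_eq_zero
        intro b _
        have hbw : b.1 ≠ w := by
          intro h
          apply hw
          rw [← h]
          exact b.2
        rw [if_neg hbw, zero_mul]
    have h2 : ∀ x : {v : V // v ≠ v0}, NN par r j (j, x) * u (j, x) =
        (if x.1 = r.2.1 then (1 : ℝ) else 0) * u (j, x) -
          (if x.1 = par r.1 r.2.1 then (1 : ℝ) else 0) * u (j, x) := by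
      intro x
      unfold NN bet
      rw [if_pos rfl]
      ring
    rw [Finset.sum_congr rfl fun x _ => h2 x, Finset.sum_sub_distrib, h1, h1]
  · intro k _ hk
    apply Finset.sum_eq_zero
    intro x _
    unfold NN
    rw [if_neg hk, zero_mul]
  · intro h
    exact absurd (Finset.mem_univ _) h

theorem det_trees_ne_zero {par : Fin d → V → V} {rk : Fin d → V → ℕ} (hT : Trees v0 par rk) :
    Matrix.det (Matrix.of fun (r c : Fin d × {v : V // v ≠ v0}) => NN par r r.1 c) ≠ 0 := by
  intro h0
  obtain ⟨u, hu, hu0⟩ := Matrix.exists_mulVec_eq_zero_iff.2 h0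
  apply hu
  have h1 : ∀ r : Fin d × {v : V // v ≠ v0},
      ext0 u r.1 r.2.1 = ext0 u r.1 (par r.1 r.2.1) := by
    intro r
    have h2 := congrFun hu0 r
    have h3 := sum_NN par r r.1 u
    rw [← sub_eq_zero, ← h3]
    exact h2
  have h2 : ∀ i : Fin d, ∀ n : ℕ, ∀ v : V, rk i v ≤ n → ext0 u i v = 0 := by
    intro i n
    induction n with
    | zero =>
      intro v hv
      by_cases hv0 : v = v0
      · unfold ext0
        rw [dif_neg (not_not.2 hv0)]
      · have := hT.lt i v hv0
        omega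
    | succ n ih =>
      intro v hv
      by_cases hv0 : v = v0
      · unfold ext0
        rw [dif_neg (not_not.2 hv0)]
      · have h3 := hT.lt i v hv0
        rw [h1 (i, ⟨v, hv0⟩)]
        exact ih _ (by simp only; omega)
  funext r
  have h3 := h2 r.1 _ r.2.1 le_rfl
  unfold ext0 at h3
  rw [dif_pos r.2.2] at h3
  exact h3

/-- The placement with parameter `x`. -/
noncomputable def place (x : ℝ) (v : V) (j : Fin d) : ℝ := x * tt (j, v) - tt (j, v) ^ 2

theorem place_sub (x : ℝ) (v w : V) (j : Fin d) :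
    place x v j - place x w j = (tt (j, v) - tt (j, w)) * (x - (tt (j, v) + tt (j, w))) := by
  unfold place
  ring

/-- The root of the difference of the row `r` in the coordinate `j`. -/
noncomputable def zet (par : Fin d → V → V) (h : (Fin d × {v : V // v ≠ v0}) × Fin d) : ℝ :=
  tt (h.2, h.1.2.1) + tt (h.2, par h.1.1 h.1.2.1)

theorem zet_inj {par : Fin d → V → V} {rk : Fin d → V → ℕ} (hT : Trees v0 par rk) :
    Function.Injective (zet par : (Fin d × {v : V // v ≠ v0}) × Fin d → ℝ) := by
  rintro ⟨⟨i, v, hv⟩, j⟩ ⟨⟨i', v', hv'⟩, j'⟩ h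
  have hne : ∀ i v, v ≠ v0 → v ≠ par i v := by
    intro i v hv h
    have := hT.lt i v hv
    rw [← h] at this
    exact lt_irrefl _ this
  unfold zet at h
  simp only at h
  rcases tt_add_inj (a := (j, v)) (b := (j, par i v)) (c := (j', v')) (e := (j', par i' v'))
    (fun h => hne i v hv (Prod.ext_iff.1 h).2) (fun h => hne i' v' hv' (Prod.ext_iff.1 h).2) h with
    ⟨h1, h2⟩ | ⟨h1, h2⟩
  · rw [Prod.ext_iff] at h1 h2
    simp only at h1 h2
    obtain ⟨h3, h4⟩ := hT.inj i v i' v' hv hv' (by rw [h1.2, ← h2.2, h1.2])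
    subst h3
    obtain ⟨rfl, rfl⟩ := h1
    rfl
  · rw [Prod.ext_iff] at h1 h2
    simp only at h1 h2
    obtain ⟨h3, h4⟩ := hT.inj i v i' v' hv hv' (by rw [h2.2, h1.2, Sym2.eq_swap])
    subst h3
    subst h4
    obtain ⟨rfl, h1⟩ := h1
    rfl

/-- The rigidity matrix of the placement. -/
noncomputable def MM (s : ℝ) (par : Fin d → V → V) (x : ℝ) :
    Matrix (Fin d × {v : V // v ≠ v0}) (Fin d × {v : V // v ≠ v0}) ℝ :=
  Matrix.of fun r c => ∑ j, ph s (place x r.2.1 j - place x (par r.1 r.2.1) j) * NN par r j c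

theorem MM_mulVec (s : ℝ) (par : Fin d → V → V) (x : ℝ) (u : Fin d × {v : V // v ≠ v0} → ℝ)
    (r : Fin d × {v : V // v ≠ v0}) :
    (MM s par x).mulVec u r = ∑ j, ph s (place x r.2.1 j - place x (par r.1 r.2.1) j) *
      (ext0 u j r.2.1 - ext0 u j (par r.1 r.2.1)) := by
  have h1 : (MM s par x).mulVec u r = ∑ c, (∑ j, ph s (place x r.2.1 j -
      place x (par r.1 r.2.1) j) * NN par r j c) * u c := rfl
  rw [h1]
  simp_rw [Finset.sum_mul]
  rw [Finset.sum_comm]
  apply Finset.sum_congr rfl
  intro j _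
  rw [← sum_NN par r j u, Finset.mul_sum]
  exact Finset.sum_congr rfl fun c _ => by ring

/-- Near every point of the domain the determinant is nonzero. -/
theorem det_eventually_ne {par : Fin d → V → V} {rk : Fin d → V → ℕ} (hT : Trees v0 par rk)
    {s : ℝ} (hs : ∀ m : ℤ, (m : ℝ) ≠ s) {x1 : ℝ}
    (hx1 : ∀ h : (Fin d × {v : V // v ≠ v0}) × Fin d, zet par h < x1) :
    ∀ᶠ x in 𝓝[≠] x1, (MM s par x : Matrix (Fin d × {v : V // v ≠ v0}) _ ℝ).det ≠ 0 := by
  classical
  -- the coefficients
  set K : (Fin d × {v : V // v ≠ v0} → Fin d) → ℝ := fun f =>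
    (∏ r : Fin d × {v : V // v ≠ v0}, ph s (tt (f r, r.2.1) - tt (f r, par r.1 r.2.1))) *
      Matrix.det (Matrix.of fun (r c : Fin d × {v : V // v ≠ v0}) => NN par r (f r) c) with hK
  set gr : (Fin d × {v : V // v ≠ v0} → Fin d) → Finset ((Fin d × {v : V // v ≠ v0}) × Fin d) :=
    fun f => Finset.univ.image fun r => (r, f r) with hgr
  have hgrinj : Function.Injective gr := by
    intro f g h
    funext r
    have h1 : (r, f r) ∈ gr f := Finset.mem_image.2 ⟨r, Finset.mem_univ _, rfl⟩
    rw [h] at h1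
    obtain ⟨r', _, h2⟩ := Finset.mem_image.1 h1
    rw [Prod.ext_iff] at h2
    obtain ⟨h3, h4⟩ := h2
    simp only at h3 h4
    rw [← h4, h3]
  set c : Finset ((Fin d × {v : V // v ≠ v0}) × Fin d) → ℝ := fun T =>
    ∑ f ∈ Finset.univ.filter (fun f => gr f = T), K f with hc
  have hF : ∀ x : ℝ, (∀ h : (Fin d × {v : V // v ≠ v0}) × Fin d, zet par h < x) →
      (MM s par x : Matrix (Fin d × {v : V // v ≠ v0}) _ ℝ).det =
        ∑ T ∈ (Finset.univ : Finset ((Fin d × {v : V // v ≠ v0}) × Fin d)).powerset,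
          c T * gT s (zet par) T x := by
    intro x hx
    unfold MM
    rw [det_expand]
    have h1 : ∀ f : Fin d × {v : V // v ≠ v0} → Fin d,
        (∏ r, ph s (place x r.2.1 (f r) - place x (par r.1 r.2.1) (f r))) *
          Matrix.det (Matrix.of fun (r c : Fin d × {v : V // v ≠ v0}) => NN par r (f r) c) =
        K f * gT s (zet par) (gr f) x := by
      intro f
      rw [hK]
      simp only
      unfold gT
      rw [hgr]
      simp only
      rw [Finset.prod_image (by
        intro a _ b _ h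
        exact (Prod.ext_iff.1 h).1)]
      rw [mul_right_comm, ← Finset.prod_mul_distrib]
      congr 1
      apply Finset.prod_congr rfl
      intro r _
      rw [place_sub]
      exact ph_mul s _ _ (sub_pos.2 (hx (r, f r)))
    rw [Finset.sum_congr rfl fun f _ => h1 f]
    rw [hc]
    simp only
    simp_rw [Finset.sum_mul]
    rw [Finset.powerset_univ]
    rw [← Finset.sum_fiberwise (Finset.univ) gr (fun f => K f * gT s (zet par) (gr f) x)]
    apply Finset.sum_congr rfl
    intro T _
    apply Finset.sum_congr rfl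
    intro f hf
    rw [(Finset.mem_filter.1 hf).2]
  have hcne : c (gr fun r => r.1) ≠ 0 := by
    rw [hc]
    simp only
    have h1 : Finset.univ.filter (fun f => gr f = gr fun r => r.1) =
        {(fun r : Fin d × {v : V // v ≠ v0} => r.1)} := by
      ext f
      simp only [Finset.mem_filter, Finset.mem_univ, true_and, Finset.mem_singleton]
      exact ⟨fun h => hgrinj h, fun h => by rw [h]⟩
    rw [h1, Finset.sum_singleton, hK]
    apply mul_ne_zero _ (det_trees_ne_zero hT)
    rw [Finset.prod_ne_zero_iff]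
    intro r _
    apply ph_ne_zero
    rw [sub_ne_zero]
    intro h
    have h2 : r.2.1 = par r.1 r.2.1 := (Prod.ext_iff.1 (tt_inj h)).2
    have h3 := hT.lt r.1 r.2.1 r.2.2
    rw [← h2] at h3
    exact lt_irrefl _ h3
  have han := fun x (hx : ∀ h : (Fin d × {v : V // v ≠ v0}) × Fin d, zet par h < x) =>
    analyticAt_sum_gT s (zet par) Finset.univ c x (fun h _ => hx h)
  have hev : ∀ᶠ x in 𝓝[≠] x1, ∑ T ∈ (Finset.univ :
      Finset ((Fin d × {v : V // v ≠ v0}) × Fin d)).powerset, c T * gT s (zet par) T x ≠ 0 := by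
    rcases (han x1 hx1).eventually_eq_zero_or_eventually_ne_zero with h | h
    · exfalso
      have h1 := AnalyticOnNhd.eqOn_zero_of_preconnected_of_eventuallyEq_zero
        (fun x (hx : x ∈ {x : ℝ | ∀ h ∈ (Finset.univ :
          Finset ((Fin d × {v : V // v ≠ v0}) × Fin d)), zet par h < x}) =>
            han x (fun h => hx h (Finset.mem_univ h))) (domain_preconnected _ _) (z₀ := x1)
        (fun h _ => hx1 h) h
      exact hcne (lin_indep hs (zet par) (zet_inj hT) Finset.univ c
        (fun x hx => h1 hx) _ (Finset.subset_univ _))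
    · exact h
  have hdom : ∀ᶠ x in 𝓝[≠] x1, ∀ h : (Fin d × {v : V // v ≠ v0}) × Fin d, zet par h < x := by
    rw [eventually_all]
    intro h
    exact (eventually_gt_nhds (hx1 h)).filter_mono nhdsWithin_le_nhds
  filter_upwards [hev, hdom] with x h1 h2
  rw [hF x h2]
  exact h1

/-- A motion which satisfies the row equations is constant when the determinant is not zero. -/
theorem const_of_det {s : ℝ} {par : Fin d → V → V} {x : ℝ}
    (hdet : (MM s par x : Matrix (Fin d × {v : V // v ≠ v0}) _ ℝ).det ≠ 0)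
    (m : V → Fin d → ℝ) (hm : ∀ i v, v ≠ v0 →
      ∑ k, ph s (place x v k - place x (par i v) k) * (m v k - m (par i v) k) = 0) :
    ∀ v w, m v = m w := by
  have key : ∀ v, m v = m v0 := by
    by_contra hc
    push Not at hc
    obtain ⟨v, hv⟩ := hc
    apply hdet
    rw [← Matrix.exists_mulVec_eq_zero_iff]
    refine ⟨fun c => m c.2.1 c.1 - m v0 c.1, ?_, ?_⟩
    · intro h0
      apply hv
      funext k
      by_cases hv0 : v = v0
      · rw [hv0]
      · have h1 := congrFun h0 (k, ⟨v, hv0⟩)
        simp only [Pi.zero_apply] at h1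
        linarith
    · funext r
      rw [MM_mulVec, Pi.zero_apply, ← hm r.1 r.2.1 r.2.2]
      have hext : ∀ k w, ext0 (fun c : Fin d × {v : V // v ≠ v0} => m c.2.1 c.1 - m v0 c.1) k w =
          m w k - m v0 k := by
        intro k w
        unfold ext0
        split_ifs with hw
        · rfl
        · push Not at hw
          rw [hw, sub_self]
      apply Finset.sum_congr rfl
      intro k _
      rw [hext, hext]
      ring
  intro v w
  rw [key v, key w]

end

end Pool.Agent.H568R3
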