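import Pool.Agent.H568R3.Lq

/-!
# Unions of Hamilton cycles
-/

set_option autoImplicit false

namespace Pool.Agent.H568R3

open scoped ENNReal

/-- The edge set of `G` is the disjoint union of the edge sets of `d` Hamilton cycles of `G`. -/
def IsUnionOfHamiltonCycles {V : Type*} [DecidableEq V] (d : ℕ) (G : SimpleGraph V) : Prop :=
  ∃ (a : Fin d → V) (H : ∀ i, G.Walk (a i) (a i)), (∀ i, (H i).IsHamiltonianCycle) ∧
    ∀ e ∈ G.edgeSet, ∃! i, e ∈ (H i).edges

/-- The graph of the edges of a walk. -/
def wg {V : Type*} {G : SimpleGraph V} {a b : V} (c : G.Walk a b) : SimpleGraph V :=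
  SimpleGraph.fromEdgeSet {e | e ∈ c.edges}

theorem mem_wg {V : Type*} {G : SimpleGraph V} {a b : V} (c : G.Walk a b) (e : Sym2 V) :
    e ∈ (wg c).edgeSet ↔ e ∈ c.edges := by
  unfold wg
  rw [SimpleGraph.edgeSet_fromEdgeSet]
  constructor
  · intro h
    exact h.1
  · intro h
    exact ⟨h, fun h2 => G.not_isDiag_of_mem_edgeSet (c.edges_subset_edgeSet h) h2⟩

theorem wg_le {V : Type*} {G : SimpleGraph V} {a b : V} (c : G.Walk a b) : wg c ≤ G := by
  rw [← SimpleGraph.edgeSet_subset_edgeSet]
  intro e he
  exact c.edges_subset_edgeSet ((mem_wg c e).1 he)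

theorem wg_connected {V : Type*} [DecidableEq V] {G : SimpleGraph V} {a : V} {c : G.Walk a a}
    (hc : c.IsHamiltonianCycle) : (wg c).Connected := by
  have hsub : ∀ e ∈ c.edges, e ∈ (wg c).edgeSet := fun e he => (mem_wg c e).2 he
  rw [SimpleGraph.connected_iff_exists_forall_reachable]
  refine ⟨a, fun v => ?_⟩
  have hv : v ∈ (c.transfer (wg c) hsub).support := by
    rw [SimpleGraph.Walk.support_transfer]
    exact hc.mem_support v
  exact ((c.transfer (wg c) hsub).takeUntil v hv).reachable

theorem wg_delete_connected {V : Type*} [DecidableEq V] {G : SimpleGraph V} {a : V}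
    {c : G.Walk a a} (hc : c.IsHamiltonianCycle) (e : Sym2 V) :
    ((wg c).deleteEdges {e}).Connected := by
  have hsub : ∀ e ∈ c.edges, e ∈ (wg c).edgeSet := fun e he => (mem_wg c e).2 he
  by_cases he : e ∈ c.edges
  · have hcyc : (c.transfer (wg c) hsub).IsCycle := hc.isCycle.transfer hsub
    have hb : ¬ (wg c).IsBridge e := by
      intro hb
      apply hb.notMem_edges_of_isCycle hcyc
      rw [SimpleGraph.Walk.edges_transfer]
      exact he
    induction e with
    | h x y => exact (wg_connected hc).connected_delete_edge_of_not_isBridge hb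
  · have h1 : (wg c).deleteEdges {e} = wg c := by
      rw [SimpleGraph.deleteEdges_eq_self, Set.disjoint_singleton_right, mem_wg]
      exact he
    rw [h1]
    exact wg_connected hc

/-- Every graph which is the edge-disjoint union of `d` Hamilton cycles has a redundantly rigid
placement in `ℓ_q^d` for every non-integral `q > 1`. -/
theorem ham_redundant {V : Type*} [DecidableEq V] {d : ℕ} (hd : 1 ≤ d) {G : SimpleGraph V}
    (hG : IsUnionOfHamiltonCycles d G) {q : ℝ} (hq : 1 < q) (hqn : ∀ m : ℤ, (m : ℝ) ≠ q) :
    ∃ p : V → Fin d → ℝ, RedundantlyRigid (ENNReal.ofReal q) G p := by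
  obtain ⟨a, H, hH, hu⟩ := hG
  have hfin : Finite V := (hH ⟨0, hd⟩).finite
  have hne : Nonempty V := ⟨a ⟨0, hd⟩⟩
  have hfinE : Finite G.edgeSet := inferInstance
  let G' : Option G.edgeSet → SimpleGraph V := fun j => match j with
    | none => G
    | some e => G.deleteEdges {e.1}
  let K : Option G.edgeSet → Fin d → SimpleGraph V := fun j i => match j with
    | none => wg (H i)
    | some e => (wg (H i)).deleteEdges {e.1}
  have hdis : ∀ i i', i ≠ i' → Disjoint (wg (H i)) (wg (H i')) := by
    intro i i' hii
    rw [← SimpleGraph.disjoint_edgeSet, Set.disjoint_left]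
    intro e he he'
    rw [mem_wg] at he he'
    exact hii ((hu e ((H i).edges_subset_edgeSet he)).unique he he')
  obtain ⟨p, hp⟩ := exists_rigid (V := V) hd hq hqn G' K (by
      rintro (_ | e) i
      · exact wg_le (H i)
      · exact SimpleGraph.deleteEdges_mono (wg_le (H i))) (by
      rintro (_ | e) i
      · exact wg_connected (hH i)
      · exact wg_delete_connected (hH i) e.1) (by
      rintro (_ | e) i i' hii
      · exact hdis i i' hii
      · exact (hdis i i' hii).mono (SimpleGraph.deleteEdges_le _) (SimpleGraph.deleteEdges_le _))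
  exact ⟨p, hp none, fun e he => hp (some ⟨e, he⟩)⟩

end Pool.Agent.H568R3
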