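import Pool.Agent.H568R3.LqDefs

/-!
# `K_5` has no redundantly rigid placement in the plane with the `ℓ_∞` or the `ℓ_1` norm
-/

set_option autoImplicit false

namespace Pool.Agent.H568R3

open scoped ENNReal
open Filter Topology

theorem lqNorm_top (x : Fin 2 → ℝ) : lqNorm ∞ x = max |x 0| |x 1| := by
  unfold lqNorm
  rw [PiLp.norm_eq_ciSup]
  apply le_antisymm
  · apply ciSup_le
    intro i
    fin_cases i
    · exact le_max_left _ _
    · exact le_max_right _ _
  · apply max_le
    · exact le_ciSup (f := fun i => ‖(WithLp.toLp ∞ x : PiLp ∞ fun _ : Fin 2 => ℝ) i‖)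
        (Set.finite_range _).bddAbove 0
    · exact le_ciSup (f := fun i => ‖(WithLp.toLp ∞ x : PiLp ∞ fun _ : Fin 2 => ℝ) i‖)
        (Set.finite_range _).bddAbove 1

theorem lqNorm_one (x : Fin 2 → ℝ) : lqNorm 1 x = |x 0| + |x 1| := by
  unfold lqNorm
  rw [PiLp.norm_eq_sum (by norm_num)]
  simp [Fin.sum_univ_two, Real.norm_eq_abs]

/-- The other index. -/
def oth (k : Fin 2) : Fin 2 := 1 - k

theorem max_oth (x : Fin 2 → ℝ) (k : Fin 2) : max |x 0| |x 1| = max |x k| |x (oth k)| := by
  fin_cases k
  · rfl
  · exact max_comm _ _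

/-- If `|x k|` is the largest coordinate then the derivative of the norm is `±` that coordinate. -/
theorem fderiv_top {x : Fin 2 → ℝ} {k : Fin 2} (hx : |x (oth k)| < |x k|) (h : Fin 2 → ℝ) :
    fderiv ℝ (lqNorm ∞) x h = SignType.sign (x k) * h k := by
  have hk : x k ≠ 0 := by
    intro h0
    rw [h0, abs_zero] at hx
    exact absurd hx (not_lt.2 (abs_nonneg _))
  have h1 : HasFDerivAt (fun y : Fin 2 → ℝ => |y k|)
      ((SignType.sign (x k) : ℝ) • (ContinuousLinearMap.proj k : (Fin 2 → ℝ) →L[ℝ] ℝ)) x := by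
    have h2 := hasDerivAt_abs hk
    have h3 : HasFDerivAt (fun y : Fin 2 → ℝ => y k)
      (ContinuousLinearMap.proj k : (Fin 2 → ℝ) →L[ℝ] ℝ) x := hasFDerivAt_apply k x
    exact h2.comp_hasFDerivAt x h3
  have h2 : (lqNorm ∞ : (Fin 2 → ℝ) → ℝ) =ᶠ[𝓝 x] fun y : Fin 2 → ℝ => |y k| := by
    have c1 : Continuous fun y : Fin 2 → ℝ => |y (oth k)| := by fun_prop
    have c2 : Continuous fun y : Fin 2 → ℝ => |y k| := by fun_prop
    filter_upwards [(isOpen_lt c1 c2).mem_nhds hx] with y hy
    rw [lqNorm_top, max_oth y k, max_eq_left (le_of_lt hy)]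
  rw [(h1.congr_of_eventuallyEq h2).fderiv]
  rfl

/-- The norm is not differentiable where the two coordinates have equal absolute values. -/
theorem not_diff_top {x : Fin 2 → ℝ} (hx : |x 0| = |x 1|) :
    ¬ DifferentiableAt ℝ (lqNorm ∞) x := by
  intro hd
  obtain ⟨σ, hσ, hσx⟩ : ∃ σ : ℝ, |σ| = 1 ∧ σ * x 0 = |x 0| := by
    rcases le_total 0 (x 0) with h | h
    · exact ⟨1, abs_one, by rw [one_mul, abs_of_nonneg h]⟩
    · exact ⟨-1, by simp, by rw [abs_of_nonpos h]; ring⟩
  have hσ2 : σ * σ = 1 := by
    have := abs_mul_abs_self σ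
    rw [hσ] at this
    linarith
  -- the line through x
  let l : ℝ → Fin 2 → ℝ := fun t => x + t • ![σ, 0]
  have hl : HasDerivAt l ![σ, 0] 0 := by
    have h1 : HasDerivAt (fun t : ℝ => t • (![σ, 0] : Fin 2 → ℝ)) ((1 : ℝ) • ![σ, 0]) 0 :=
      (hasDerivAt_id (0 : ℝ)).smul_const _
    rw [one_smul] at h1
    exact h1.const_add x
  have hl0 : l 0 = x := by
    show x + (0 : ℝ) • (![σ, 0] : Fin 2 → ℝ) = x
    rw [zero_smul, add_zero]
  have hg : HasDerivAt (fun t => lqNorm ∞ (l t)) (fderiv ℝ (lqNorm ∞) x ![σ, 0]) 0 := by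
    have h1 : HasFDerivAt (lqNorm ∞) (fderiv ℝ (lqNorm ∞) x) (l 0) := by
      rw [hl0]
      exact hd.hasFDerivAt
    exact h1.comp_hasDerivAt 0 hl
  have hval : ∀ t, lqNorm ∞ (l t) = max |(|x 0| + t)| |x 0| := by
    intro t
    rw [lqNorm_top]
    have e0 : l t 0 = x 0 + t * σ := by
      show x 0 + t • (![σ, 0] : Fin 2 → ℝ) 0 = _
      simp
    have e1 : l t 1 = x 1 := by
      show x 1 + t • (![σ, 0] : Fin 2 → ℝ) 1 = _
      simp
    rw [e0, e1, ← hx]
    congr 1
    have : x 0 + t * σ = σ * (|x 0| + t) := by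
      rw [← hσx]
      linear_combination (-(x 0)) * hσ2
    rw [this, abs_mul, hσ, one_mul]
  set D := fderiv ℝ (lqNorm ∞) x ![σ, 0] with hD
  have hslope := hg.tendsto_slope
  have hr : Tendsto (slope (fun t => lqNorm ∞ (l t)) 0) (𝓝[>] 0) (𝓝 D) :=
    hslope.mono_left (nhdsWithin_mono 0 fun x hx => ne_of_gt hx)
  have hl' : Tendsto (slope (fun t => lqNorm ∞ (l t)) 0) (𝓝[<] 0) (𝓝 D) :=
    hslope.mono_left (nhdsWithin_mono 0 fun x hx => ne_of_lt hx)
  have h0 : lqNorm ∞ (l 0) = |x 0| := by
    rw [hval, add_zero, abs_abs, max_self]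
  have hr1 : D = 1 := by
    apply tendsto_nhds_unique hr
    apply tendsto_const_nhds.congr'
    filter_upwards [self_mem_nhdsWithin] with t ht
    have ht' : 0 < t := ht
    have hnn := abs_nonneg (x 0)
    rw [slope_def_field, h0, hval, abs_of_nonneg (by linarith : 0 ≤ |x 0| + t),
      max_eq_left (by linarith), add_sub_cancel_left, sub_zero, div_self ht'.ne']
  have hl1 : D ≤ 0 := by
    apply le_of_tendsto hl'
    filter_upwards [self_mem_nhdsWithin, Ioo_mem_nhdsLT (show -1 < (0 : ℝ) by norm_num)]
      with t ht _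
    have ht' : t < 0 := ht
    rw [slope_def_field, h0, hval]
    apply div_nonpos_of_nonneg_of_nonpos
    · rw [sub_nonneg]
      exact le_max_right _ _
    · linarith
  linarith

/-- **No redundantly rigid placement of `K_5` in the `ℓ_∞` plane.** -/
theorem k5_top (p : Fin 5 → Fin 2 → ℝ) :
    ¬ RedundantlyRigid ∞ (⊤ : SimpleGraph (Fin 5)) p := by
  classical
  rintro ⟨⟨hwp, -⟩, hred⟩
  -- the colours
  let c : Fin 2 → Fin 5 → Fin 5 → Prop := fun k u v =>
    u ≠ v ∧ |(p u - p v) (oth k)| < |(p u - p v) k|
  have csymm : ∀ k u v, c k u v → c k v u := by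
    intro k u v h
    refine ⟨h.1.symm, ?_⟩
    have h2 := h.2
    simp only [Pi.sub_apply] at h2 ⊢
    rw [abs_sub_comm, abs_sub_comm (p v k)]
    exact h2
  have hor : ∀ u v, u ≠ v → c 0 u v ∨ c 1 u v := by
    intro u v huv
    rcases lt_trichotomy |(p u - p v) 0| |(p u - p v) 1| with h | h | h
    · exact Or.inr ⟨huv, h⟩
    · exact absurd (hwp u v huv) (not_diff_top h)
    · exact Or.inl ⟨huv, h⟩
  have hnot : ∀ u v, c 0 u v → ¬ c 1 u v := by
    intro u v h1 h2
    have h3 := h1.2
    have h4 := h2.2
    exact absurd h3 (not_lt.2 h4.le)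
  have hfd : ∀ k u v (h : Fin 2 → ℝ), c k u v →
      fderiv ℝ (lqNorm ∞) (p u - p v) h = SignType.sign ((p u - p v) k) * h k := by
    intro k u v h hc
    exact fderiv_top hc.2 h
  -- at least two neighbours of each colour
  have hdeg : ∀ k v, 2 ≤ (Finset.univ.filter fun u => c k u v).card := by
    intro k v
    by_contra hlt
    push Not at hlt
    obtain ⟨u0, hu0, hN⟩ : ∃ u0, u0 ≠ v ∧ ∀ u, c k u v → u = u0 := by
      rcases (Finset.univ.filter fun u => c k u v).eq_empty_or_nonempty with he | ⟨u1, hu1⟩
      · obtain ⟨u0, hu0⟩ := exists_ne v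
        refine ⟨u0, hu0, fun u hu => ?_⟩
        have : u ∈ (Finset.univ.filter fun u => c k u v) := by simp [hu]
        rw [he] at this
        simp at this
      · have h1 : c k u1 v := by simpa using hu1
        refine ⟨u1, h1.1, fun u hu => ?_⟩
        have h2 : (Finset.univ.filter fun u => c k u v).card ≤ 1 := by omega
        exact Finset.card_le_one.1 h2 u (by simp [hu]) u1 hu1
    have hr := (hred s(v, u0) (by simpa using hu0.symm)).2
    let m : Fin 5 → Fin 2 → ℝ := fun w j => if w = v ∧ j = k then 1 else 0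
    have hm : IsFlex ∞ ((⊤ : SimpleGraph (Fin 5)).deleteEdges {s(v, u0)}) p m := by
      intro a b hab
      rw [SimpleGraph.deleteEdges_adj] at hab
      obtain ⟨hab, hne⟩ := hab
      have hab' : a ≠ b := hab
      have hcol : ∃ k', c k' a b ∧ m a k' = m b k' := by
        by_cases ha : a = v
        · subst ha
          have hb : b ≠ u0 := by
            rintro rfl
            exact hne rfl
          have h1 : ¬ c k a b := fun h => hb (hN b (csymm _ _ _ h))
          have h2 : c (oth k) a b := by
            rcases hor a b hab' with h | h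
            · fin_cases k
              · exact absurd h h1
              · exact h
            · fin_cases k
              · exact h
              · exact absurd h h1
          refine ⟨oth k, h2, ?_⟩
          have h3 : oth k ≠ k := by fin_cases k <;> decide
          simp [m, h3]
        · by_cases hb : b = v
          · subst hb
            have ha' : a ≠ u0 := by
              rintro rfl
              exact hne Sym2.eq_swap
            have h1 : ¬ c k a b := fun h => ha' (hN a h)
            have h2 : c (oth k) a b := by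
              rcases hor a b hab' with h | h
              · fin_cases k
                · exact absurd h h1
                · exact h
              · fin_cases k
                · exact h
                · exact absurd h h1
            refine ⟨oth k, h2, ?_⟩
            have h3 : oth k ≠ k := by fin_cases k <;> decide
            simp [m, h3]
          · rcases hor a b hab' with h | h
            · exact ⟨0, h, by simp [m, ha, hb]⟩
            · exact ⟨1, h, by simp [m, ha, hb]⟩
      obtain ⟨k', h1, h2⟩ := hcol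
      have h3 : (m a - m b) k' = 0 := by rw [Pi.sub_apply, h2, sub_self]
      rw [hfd k' a b _ h1, h3, mul_zero]
    have h1 := congrFun (hr m hm v u0) k
    have h2 : u0 ≠ v := hu0
    simp [m, h2] at h1
  -- exactly two neighbours of each colour
  have hdeg0 : ∀ v, (Finset.univ.filter fun u => c 0 u v).card = 2 := by
    intro v
    have h1 := hdeg 0 v
    have h2 := hdeg 1 v
    have h3 : Disjoint (Finset.univ.filter fun u => c 0 u v)
        (Finset.univ.filter fun u => c 1 u v) := by
      rw [Finset.disjoint_left]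
      intro u hu hu'
      simp only [Finset.mem_filter, Finset.mem_univ, true_and] at hu hu'
      exact hnot u v hu hu'
    have h4 : (Finset.univ.filter fun u => c 0 u v) ∪ (Finset.univ.filter fun u => c 1 u v) ⊆
        Finset.univ.erase v := by
      intro u hu
      rw [Finset.mem_erase]
      refine ⟨?_, Finset.mem_univ u⟩
      rcases Finset.mem_union.1 hu with h | h
      · exact (Finset.mem_filter.1 h).2.1
      · exact (Finset.mem_filter.1 h).2.1
    have h5 := Finset.card_le_card h4
    rw [Finset.card_union_of_disjoint h3, Finset.card_erase_of_mem (Finset.mem_univ v),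
      Finset.card_univ, Fintype.card_fin] at h5
    omega
  -- transitivity
  have htrans : ∀ u v w, c 0 u v → c 0 v w → p u 0 < p v 0 → p v 0 < p w 0 → c 0 u w := by
    intro u v w h1 h2 h3 h4
    refine ⟨fun h => ?_, ?_⟩
    · subst h
      exact lt_asymm h3 h4
    · have h5 := h1.2
      have h6 := h2.2
      simp only [Pi.sub_apply] at h5 h6 ⊢
      rw [abs_of_neg (sub_neg.2 h3)] at h5
      rw [abs_of_neg (sub_neg.2 h4)] at h6
      rw [abs_of_neg (sub_neg.2 (h3.trans h4))]
      have h7 := abs_sub_le (p u (oth 0)) (p v (oth 0)) (p w (oth 0))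
      linarith
  -- no triangle
  have htri : ∀ u v w, c 0 u v → c 0 v w → c 0 u w → False := by
    intro u v w h1 h2 h3
    have hN : ∀ x y z, c 0 y x → c 0 z x → y ≠ z → ∀ a, c 0 a x → a = y ∨ a = z := by
      intro x y z hy hz hyz a ha
      by_contra hc
      push Not at hc
      have h4 : ({a, y, z} : Finset (Fin 5)) ⊆ Finset.univ.filter fun u => c 0 u x := by
        intro t ht
        simp only [Finset.mem_insert, Finset.mem_singleton] at ht
        simp only [Finset.mem_filter, Finset.mem_univ, true_and]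
        rcases ht with rfl | rfl | rfl
        · exact ha
        · exact hy
        · exact hz
      have h5 := Finset.card_le_card h4
      rw [hdeg0 x, Finset.card_eq_three.2 ⟨a, y, z, hc.1, hc.2, hyz, rfl⟩] at h5
      omega
    obtain ⟨a, ha⟩ : ∃ a, a ∉ ({u, v, w} : Finset (Fin 5)) := by
      by_contra hc
      push Not at hc
      have h4 : (Finset.univ : Finset (Fin 5)) ⊆ {u, v, w} := fun t _ => hc t
      have h5 := Finset.card_le_card h4
      have h6 : ({u, v, w} : Finset (Fin 5)).card ≤ 3 := Finset.card_le_three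
      rw [Finset.card_univ, Fintype.card_fin] at h5
      omega
    simp only [Finset.mem_insert, Finset.mem_singleton, not_or] at ha
    have h4 : (Finset.univ.filter fun t => c 0 t a) ⊆ Finset.univ \ {a, u, v, w} := by
      intro t ht
      simp only [Finset.mem_filter, Finset.mem_univ, true_and] at ht
      simp only [Finset.mem_sdiff, Finset.mem_univ, true_and, Finset.mem_insert,
        Finset.mem_singleton, not_or]
      refine ⟨ht.1, ?_, ?_, ?_⟩
      · rintro rfl
        rcases hN t v w (csymm _ _ _ h1) (csymm _ _ _ h3) h2.1 a (csymm _ _ _ ht) with h | h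
        · exact ha.2.1 h
        · exact ha.2.2 h
      · rintro rfl
        rcases hN t u w h1 (csymm _ _ _ h2) h3.1 a (csymm _ _ _ ht) with h | h
        · exact ha.1 h
        · exact ha.2.2 h
      · rintro rfl
        rcases hN t u v h3 h2 h1.1 a (csymm _ _ _ ht) with h | h
        · exact ha.1 h
        · exact ha.2.1 h
    have h5 := Finset.card_le_card h4
    have h6 : ({a, u, v, w} : Finset (Fin 5)).card = 4 := by
      rw [Finset.card_insert_of_notMem, Finset.card_eq_three.2 ⟨u, v, w, h1.1, h3.1, h2.1, rfl⟩]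
      simp only [Finset.mem_insert, Finset.mem_singleton, not_or]
      exact ha
    rw [hdeg0 a, Finset.card_sdiff_of_subset (Finset.subset_univ _), h6, Finset.card_univ,
      Fintype.card_fin] at h5
    omega
  -- sources and sinks
  let up : Fin 5 → Prop := fun v => ∀ u, c 0 u v → p u 0 < p v 0
  have hne : ∀ u v, c 0 u v → p u 0 ≠ p v 0 := by
    intro u v h h'
    have h1 := h.2
    simp only [Pi.sub_apply, h', sub_self, abs_zero] at h1
    exact absurd h1 (not_lt.2 (abs_nonneg _))
  have hdown : ∀ v, ¬ up v → ∀ u, c 0 u v → p v 0 < p u 0 := by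
    intro v hv u hu
    by_contra hlt
    have h1 : p u 0 < p v 0 := lt_of_le_of_ne (not_lt.1 hlt) (hne u v hu)
    apply hv
    intro w hw
    by_contra hlt2
    have h2 : p v 0 < p w 0 := lt_of_le_of_ne (not_lt.1 hlt2) (hne w v hw).symm
    exact htri u v w hu (csymm _ _ _ hw) (htrans u v w hu (csymm _ _ _ hw) h1 h2)
  have hupdown : ∀ u v, c 0 u v → (up u ↔ ¬ up v) := by
    intro u v h
    constructor
    · intro h1 h2
      exact lt_asymm (h1 v (csymm _ _ _ h)) (h2 u h)
    · intro h1
      by_contra h2
      exact lt_asymm (hdown v h1 u h) (hdown u h2 v (csymm _ _ _ h))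
  have hcount : ∑ v ∈ Finset.univ.filter (fun v => up v), 2 =
      ∑ v ∈ Finset.univ.filter (fun v => ¬ up v), 2 := by
    have h1 : ∀ v, up v → (2 : ℕ) = ∑ u ∈ Finset.univ.filter (fun u => ¬ up u),
        if c 0 u v then 1 else 0 := by
      intro v hv
      have e : (Finset.univ.filter (fun u => ¬ up u)).filter (fun u => c 0 u v) =
          Finset.univ.filter fun u => c 0 u v := by
        ext u
        simp only [Finset.mem_filter, Finset.mem_univ, true_and]
        exact ⟨fun h => h.2, fun h => ⟨fun h' => (hupdown u v h).1 h' hv, h⟩⟩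
      rw [← Finset.card_filter, e, hdeg0 v]
    have h2 : ∀ u, ¬ up u → (2 : ℕ) = ∑ v ∈ Finset.univ.filter (fun v => up v),
        if c 0 u v then 1 else 0 := by
      intro u hu
      have e : (Finset.univ.filter (fun v => up v)).filter (fun v => c 0 u v) =
          Finset.univ.filter fun v => c 0 v u := by
        ext v
        simp only [Finset.mem_filter, Finset.mem_univ, true_and]
        exact ⟨fun h => csymm _ _ _ h.2, fun h => ⟨(hupdown v u h).2 hu, csymm _ _ _ h⟩⟩
      rw [← Finset.card_filter, e, hdeg0 u]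
    rw [Finset.sum_congr rfl fun v hv => h1 v (Finset.mem_filter.1 hv).2, Finset.sum_comm,
      ← Finset.sum_congr rfl fun u hu => h2 u (Finset.mem_filter.1 hu).2]
  rw [Finset.sum_const, Finset.sum_const, smul_eq_mul, smul_eq_mul] at hcount
  have htot : (Finset.univ.filter (fun v => up v)).card +
      (Finset.univ.filter (fun v => ¬ up v)).card = 5 := by
    have h5 : (Finset.univ : Finset (Fin 5)).card = 5 := by simp
    rw [← Finset.card_union_of_disjoint]
    · refine Eq.trans ?_ h5
      congr 1
      ext v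
      simp only [Finset.mem_union, Finset.mem_filter, Finset.mem_univ, true_and]
      exact iff_true_intro (em _)
    · rw [Finset.disjoint_left]
      intro v hv hv'
      exact (Finset.mem_filter.1 hv').2 (Finset.mem_filter.1 hv).2
  omega

/-- The linear map which turns the `ℓ_1` plane into the `ℓ_∞` plane. -/
noncomputable def rot : (Fin 2 → ℝ) ≃L[ℝ] (Fin 2 → ℝ) :=
  LinearEquiv.toContinuousLinearEquiv
    { toFun := fun x => ![x 0 + x 1, x 0 - x 1]
      invFun := fun y => ![(y 0 + y 1) / 2, (y 0 - y 1) / 2]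
      map_add' := fun x y => by
        ext i
        fin_cases i <;> simp <;> ring
      map_smul' := fun a x => by
        ext i
        fin_cases i <;> simp <;> ring
      left_inv := fun x => by
        ext i
        fin_cases i <;> simp
      right_inv := fun x => by
        ext i
        fin_cases i <;> simp <;> ring }

theorem lqNorm_rot (x : Fin 2 → ℝ) : lqNorm 1 x = lqNorm ∞ (rot x) := by
  rw [lqNorm_one, lqNorm_top]
  have h0 : rot x 0 = x 0 + x 1 := rfl
  have h1 : rot x 1 = x 0 - x 1 := rfl
  rw [h0, h1]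
  rcases le_total 0 (x 0) with ha | ha <;> rcases le_total 0 (x 1) with hb | hb
  · rw [abs_of_nonneg ha, abs_of_nonneg hb, abs_of_nonneg (add_nonneg ha hb), max_eq_left]
    rw [abs_le]
    constructor <;> linarith
  · rw [abs_of_nonneg ha, abs_of_nonpos hb, abs_of_nonneg (show 0 ≤ x 0 - x 1 by linarith),
      max_eq_right]
    · ring
    · rw [abs_le]
      constructor <;> linarith
  · rw [abs_of_nonpos ha, abs_of_nonneg hb, abs_of_nonpos (show x 0 - x 1 ≤ 0 by linarith),
      max_eq_right]
    · ring
    · rw [abs_le]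
      constructor <;> linarith
  · rw [abs_of_nonpos ha, abs_of_nonpos hb, abs_of_nonpos (add_nonpos ha hb), max_eq_left]
    · ring
    · rw [abs_le]
      constructor <;> linarith

theorem diff_rot {x : Fin 2 → ℝ} (h : DifferentiableAt ℝ (lqNorm 1) x) :
    DifferentiableAt ℝ (lqNorm ∞) (rot x) := by
  have h1 : (lqNorm ∞ : (Fin 2 → ℝ) → ℝ) = lqNorm 1 ∘ rot.symm := by
    funext y
    rw [Function.comp_apply, lqNorm_rot, ContinuousLinearEquiv.apply_symm_apply]
  rw [h1]
  apply DifferentiableAt.comp
  · rw [ContinuousLinearEquiv.symm_apply_apply]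
    exact h
  · exact rot.symm.differentiableAt

theorem fderiv_rot {x : Fin 2 → ℝ} (h : DifferentiableAt ℝ (lqNorm 1) x) (v : Fin 2 → ℝ) :
    fderiv ℝ (lqNorm 1) x v = fderiv ℝ (lqNorm ∞) (rot x) (rot v) := by
  have h1 : (lqNorm 1 : (Fin 2 → ℝ) → ℝ) = lqNorm ∞ ∘ rot := by
    funext y
    exact lqNorm_rot y
  have h2 : HasFDerivAt (lqNorm 1 : (Fin 2 → ℝ) → ℝ)
      ((fderiv ℝ (lqNorm ∞) (rot x)).comp (rot : (Fin 2 → ℝ) →L[ℝ] (Fin 2 → ℝ))) x := by
    rw [h1]
    exact (diff_rot h).hasFDerivAt.comp x rot.hasFDerivAt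
  rw [h2.fderiv]
  rfl

theorem rigid_rot {V : Type*} {G : SimpleGraph V} {p : V → Fin 2 → ℝ} (h : Rigid 1 G p) :
    Rigid ∞ G (fun v => rot (p v)) := by
  obtain ⟨h1, h2⟩ := h
  refine ⟨?_, ?_⟩
  · intro u v huv
    rw [← map_sub]
    exact diff_rot (h1 u v huv)
  · intro m hm u v
    have h3 := h2 (fun v => rot.symm (m v)) (by
      intro u v huv
      have h4 := hm u v huv
      rw [← map_sub] at h4
      have h5 : rot (rot.symm (m u) - rot.symm (m v)) = m u - m v := by
        rw [map_sub, ContinuousLinearEquiv.apply_symm_apply,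
          ContinuousLinearEquiv.apply_symm_apply]
      rw [fderiv_rot (h1 u v huv)]
      show fderiv ℝ (lqNorm ∞) (rot (p u - p v)) (rot (rot.symm (m u) - rot.symm (m v))) = 0
      rw [h5]
      exact h4) u v
    exact rot.symm.injective h3

theorem k5_one (p : Fin 5 → Fin 2 → ℝ) :
    ¬ RedundantlyRigid 1 (⊤ : SimpleGraph (Fin 5)) p := by
  rintro ⟨h1, h2⟩
  exact k5_top (fun v => rot (p v)) ⟨rigid_rot h1, fun e he => rigid_rot (h2 e he)⟩

end Pool.Agent.H568R3
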