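import Pool.Agent.H568R3.Lq

/-!
# Rigid placements in `ℓ_q^d` for all large `q`
-/

set_option autoImplicit false

namespace Pool.Agent.H568R3

open Filter Topology Polynomial
open scoped ENNReal

theorem ph_eq (s y : ℝ) (hy : y ≠ 0) : ph s y = SignType.sign y * |y| ^ s := by
  unfold ph
  have h1 : |y| ^ s = |y| ^ (s - 1) * |y| := by
    rw [← Real.rpow_add_one (abs_pos.2 hy).ne', sub_add_cancel]
  rw [h1]
  have h2 : (SignType.sign y : ℝ) * |y| = y := sign_mul_abs y
  calc |y| ^ (s - 1) * y = |y| ^ (s - 1) * ((SignType.sign y : ℝ) * |y|) := by rw [h2]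
    _ = _ := by ring

/-- An exponential sum with different positive bases and a nonzero coefficient is nonzero for all
large exponents. -/
theorem expsum_ne {F : Type*} [Fintype F] (D A : F → ℝ) (hA : ∀ f, 0 < A f)
    (hinj : Function.Injective A) (f0 : F) (hf0 : D f0 ≠ 0) :
    ∀ᶠ s : ℝ in atTop, ∑ f, D f * A f ^ s ≠ 0 := by
  classical
  obtain ⟨f1, hf1, hmax⟩ := Finset.exists_max_image (Finset.univ.filter fun f => D f ≠ 0) A
    ⟨f0, by simp [hf0]⟩
  have hD1 : D f1 ≠ 0 := (Finset.mem_filter.1 hf1).2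
  have hlim : Tendsto (fun s : ℝ => ∑ f, D f * (A f / A f1) ^ s) atTop
      (𝓝 (∑ f, if f = f1 then D f1 else 0)) := by
    apply tendsto_finsetSum
    intro f _
    split_ifs with hf
    · rw [hf]
      have h1 : (fun s : ℝ => D f1 * (A f1 / A f1) ^ s) = fun _ => D f1 := by
        funext s
        rw [div_self (hA f1).ne', Real.one_rpow, mul_one]
      rw [h1]
      exact tendsto_const_nhds
    · by_cases hDf : D f = 0
      · simp [hDf]
      · have h1 : A f / A f1 < 1 := by
          rw [div_lt_one (hA f1)]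
          exact lt_of_le_of_ne (hmax f (by simp [hDf])) fun h => hf (hinj h)
        have h2 : -1 < A f / A f1 := lt_trans (by norm_num) (div_pos (hA f) (hA f1))
        have h3 := (tendsto_rpow_atTop_of_base_lt_one (A f / A f1) h2 h1).const_mul (D f)
        rw [mul_zero] at h3
        exact h3
  rw [Finset.sum_ite_eq' Finset.univ f1 (fun _ => D f1), if_pos (Finset.mem_univ _)] at hlim
  filter_upwards [hlim.eventually_ne hD1] with s hs h0
  apply hs
  have h1 : ∀ f, D f * (A f / A f1) ^ s = (D f * A f ^ s) * (A f1 ^ s)⁻¹ := by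
    intro f
    rw [Real.div_rpow (hA f).le (hA f1).le]
    rw [div_eq_mul_inv]
    ring
  rw [Finset.sum_congr rfl fun f _ => h1 f, ← Finset.sum_mul, h0, zero_mul]

variable {V : Type*} [Fintype V] [DecidableEq V] {v0 : V} {d : ℕ}

theorem exists_large_det {par : Fin d → V → V} {rk : Fin d → V → ℕ} (hT : Trees v0 par rk)
    (x1 : ℝ) (hx1 : ∀ h : (Fin d × {v : V // v ≠ v0}) × Fin d, zet par h < x1) :
    ∃ x : ℝ, x1 < x ∧ ∀ᶠ s : ℝ in atTop,
      (MM s par x : Matrix (Fin d × {v : V // v ≠ v0}) _ ℝ).det ≠ 0 := by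
  classical
  -- the polynomials
  let κ : (Fin d × {v : V // v ≠ v0}) → Fin d → ℝ := fun r j =>
    tt (j, r.2.1) - tt (j, par r.1 r.2.1)
  have hκ : ∀ r j, κ r j ≠ 0 := by
    intro r j h
    have h2 : r.2.1 = par r.1 r.2.1 := (Prod.ext_iff.1 (tt_inj (sub_eq_zero.1 h))).2
    have h3 := hT.lt r.1 r.2.1 r.2.2
    rw [← h2] at h3
    exact lt_irrefl _ h3
  let P : (Fin d × {v : V // v ≠ v0} → Fin d) → ℝ[X] := fun f =>
    ∏ r, (C |κ r (f r)| * (X - C (zet par (r, f r))))
  have hPinj : ∀ f g, f ≠ g → P f - P g ≠ 0 := by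
    intro f g hfg h
    obtain ⟨r, hr⟩ := Function.ne_iff.1 hfg
    have h1 : (P f).eval (zet par (r, f r)) = 0 := by
      rw [eval_prod]
      apply Finset.prod_eq_zero (Finset.mem_univ r)
      simp
    have h2 : (P g).eval (zet par (r, f r)) ≠ 0 := by
      rw [eval_prod, Finset.prod_ne_zero_iff]
      intro r' _
      simp only [eval_mul, eval_C, eval_sub, eval_X]
      apply mul_ne_zero (abs_ne_zero.2 (hκ _ _))
      rw [sub_ne_zero]
      intro h3
      have h4 := zet_inj hT h3
      rw [Prod.ext_iff] at h4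
      obtain ⟨h5, h6⟩ := h4
      simp only at h5 h6
      rw [← h5] at h6
      exact hr h6
    rw [sub_eq_zero] at h
    rw [h] at h1
    exact h2 h1
  let bad : Set ℝ := ⋃ fg : (Fin d × {v : V // v ≠ v0} → Fin d) ×
    (Fin d × {v : V // v ≠ v0} → Fin d), {x | fg.1 ≠ fg.2 ∧ (P fg.1 - P fg.2).IsRoot x}
  have hbad : bad.Finite := by
    apply Set.finite_iUnion
    rintro ⟨f, g⟩
    by_cases hfg : f = g
    · apply Set.Finite.subset Set.finite_empty
      rintro x ⟨h, -⟩
      exact absurd hfg h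
    · exact (Polynomial.finite_setOf_isRoot (hPinj f g hfg)).subset fun x hx => hx.2
  obtain ⟨x, hx, hxb⟩ : ∃ x, x ∈ Set.Ioi x1 ∧ x ∉ bad := by
    by_contra hc
    push Not at hc
    exact (Set.Ioi_infinite x1) (hbad.subset hc)
  refine ⟨x, hx, ?_⟩
  have hxz : ∀ h : (Fin d × {v : V // v ≠ v0}) × Fin d, zet par h < x :=
    fun h => (hx1 h).trans hx
  let A : (Fin d × {v : V // v ≠ v0} → Fin d) → ℝ := fun f => (P f).eval x
  have hAval : ∀ f, A f = ∏ r, |κ r (f r) * (x - zet par (r, f r))| := by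
    intro f
    show (P f).eval x = _
    rw [eval_prod]
    apply Finset.prod_congr rfl
    intro r _
    simp only [eval_mul, eval_C, eval_sub, eval_X]
    rw [abs_mul, abs_of_pos (sub_pos.2 (hxz (r, f r)))]
  have hApos : ∀ f, 0 < A f := by
    intro f
    rw [hAval]
    apply Finset.prod_pos
    intro r _
    exact abs_pos.2 (mul_ne_zero (hκ _ _) (sub_pos.2 (hxz (r, f r))).ne')
  have hAinj : Function.Injective A := by
    intro f g h
    by_contra hfg
    apply hxb
    apply Set.mem_iUnion.2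
    refine ⟨(f, g), hfg, ?_⟩
    show (P f - P g).eval x = 0
    rw [eval_sub, sub_eq_zero]
    exact h
  let D : (Fin d × {v : V // v ≠ v0} → Fin d) → ℝ := fun f =>
    (∏ r, (SignType.sign (κ r (f r) * (x - zet par (r, f r))) : ℝ)) *
      Matrix.det (Matrix.of fun (r c : Fin d × {v : V // v ≠ v0}) => NN par r (f r) c)
  have hD : D (fun r => r.1) ≠ 0 := by
    apply mul_ne_zero _ (det_trees_ne_zero hT)
    rw [Finset.prod_ne_zero_iff]
    intro r _ h
    have h1 : (SignType.sign (κ r r.1 * (x - zet par (r, r.1))) : ℝ) *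
        |κ r r.1 * (x - zet par (r, r.1))| = κ r r.1 * (x - zet par (r, r.1)) := sign_mul_abs _
    rw [h, zero_mul] at h1
    exact mul_ne_zero (hκ _ _) (sub_pos.2 (hxz (r, r.1))).ne' h1.symm
  filter_upwards [expsum_ne D A hApos hAinj _ hD] with s hs
  have hdet : (MM s par x : Matrix (Fin d × {v : V // v ≠ v0}) _ ℝ).det =
      ∑ f, D f * A f ^ s := by
    unfold MM
    rw [det_expand]
    apply Finset.sum_congr rfl
    intro f _
    rw [hAval f, ← Real.finsetProd_rpow _ _ (fun r _ => abs_nonneg _)]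
    show _ = ((∏ r, (SignType.sign (κ r (f r) * (x - zet par (r, f r))) : ℝ)) *
      Matrix.det (Matrix.of fun (r c : Fin d × {v : V // v ≠ v0}) => NN par r (f r) c)) * _
    rw [mul_right_comm, ← Finset.prod_mul_distrib]
    congr 1
    apply Finset.prod_congr rfl
    intro r _
    rw [place_sub]
    exact ph_eq s _ (mul_ne_zero (hκ _ _) (sub_pos.2 (hxz (r, f r))).ne')
  rw [hdet]
  exact hs

/-- A union of `d` edge-disjoint connected spanning graphs has a placement which is infinitesimally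
rigid in `ℓ_q^d` for all large `q`. -/
theorem exists_rigid_large {V : Type*} [Finite V] [Nonempty V] {d : ℕ} (hd : 1 ≤ d)
    (G : SimpleGraph V) (K : Fin d → SimpleGraph V) (hKG : ∀ i, K i ≤ G)
    (hconn : ∀ i, (K i).Connected) (hdisj : ∀ i i', i ≠ i' → Disjoint (K i) (K i')) :
    ∃ (p : V → Fin d → ℝ) (N : ℝ), ∀ q : ℝ, N ≤ q → Rigid (ENNReal.ofReal q) G p := by
  classical
  have := Fintype.ofFinite V
  obtain ⟨v0⟩ := ‹Nonempty V›
  choose par rk hpar using fun i => exists_parent (hconn i) v0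
  have hT : Trees v0 par rk := by
    refine ⟨fun i v hv => (hpar i v hv).2, ?_⟩
    intro i v i' w hv hw h
    have h1 := (hpar i v hv).1
    have h2 := (hpar i' w hw).1
    by_cases hi : i = i'
    · subst hi
      refine ⟨rfl, ?_⟩
      rcases Sym2.eq_iff.1 h with ⟨h3, -⟩ | ⟨h3, h4⟩
      · exact h3
      · have h5 := (hpar i v hv).2
        have h6 := (hpar i w hw).2
        rw [← h3] at h6
        rw [h4] at h5
        exact absurd h5 (not_lt.2 h6.le)
    · exfalso
      have h3 := hdisj i i' hi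
      rw [SimpleGraph.disjoint_left] at h3
      apply h3 _ _ h1
      have h4 : s(v, par i v) ∈ (K i').edgeSet := by
        rw [h]
        exact h2
      exact h4
  obtain ⟨x1, hx1⟩ : ∃ x1 : ℝ, ∀ ab : (Fin d × V) × (Fin d × V), tt ab.1 + tt ab.2 < x1 := by
    obtain ⟨M, hM⟩ := (Set.finite_range
      (fun ab : (Fin d × V) × (Fin d × V) => (tt ab.1 + tt ab.2 : ℝ))).bddAbove
    exact ⟨M + 1, fun ab => lt_of_le_of_lt (hM ⟨ab, rfl⟩) (by linarith)⟩
  obtain ⟨x, hx, hev⟩ := exists_large_det hT x1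
    (fun h => hx1 ((h.2, h.1.2.1), (h.2, par h.1.1 h.1.2.1)))
  obtain ⟨N, hN⟩ := Filter.eventually_atTop.1 hev
  refine ⟨place x, max (N + 1) 2, fun q hq => ?_⟩
  have hq1 : 1 < q := lt_of_lt_of_le (by norm_num) ((le_max_right _ _).trans hq)
  have hqN : N ≤ q - 1 := by
    have := (le_max_left _ _).trans hq
    linarith
  have hne : ∀ v w : V, v ≠ w → (place x v - place x w : Fin d → ℝ) ≠ 0 := by
    intro v w hvw h
    have h1 := congrFun h ⟨0, hd⟩
    rw [Pi.sub_apply, Pi.zero_apply, place_sub] at h1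
    rcases mul_eq_zero.1 h1 with h2 | h2
    · exact hvw (Prod.ext_iff.1 (tt_inj (sub_eq_zero.1 h2))).2
    · have h3 := hx1 ((⟨0, hd⟩, v), (⟨0, hd⟩, w))
      simp only at h3
      linarith
  refine ⟨fun u v huv => differentiableAt_lqNorm hq1 (hne u v huv.ne), ?_⟩
  intro m hm
  apply const_of_det (hN (q - 1) hqN) m
  intro i v hv
  have h1 := (hpar i v hv).1
  have h2 := hm v (par i v) (hKG i h1)
  rw [fderiv_lqNorm_eq_zero hq1 (hne _ _ h1.ne)] at h2
  exact h2

end Pool.Agent.H568R3
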