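import Pool.Agent.H568R3.LqDefs
import Pool.Agent.H568R3.Core

/-!
# The derivative of the `ℓ_q` norm and rigid placements for non-integral `q`
-/

set_option autoImplicit false

namespace Pool.Agent.H568R3

open scoped ENNReal
open Filter Topology

variable {d : ℕ}

theorem lqNorm_eq {q : ℝ} (hq : 0 < q) (x : Fin d → ℝ) :
    lqNorm (ENNReal.ofReal q) x = (∑ i, |x i| ^ q) ^ (1 / q) := by
  unfold lqNorm
  have h : (ENNReal.ofReal q).toReal = q := ENNReal.toReal_ofReal hq.le
  rw [PiLp.norm_eq_sum (by rw [h]; exact hq), h]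
  simp [Real.norm_eq_abs]

/-- The derivative of the `ℓ_q` norm away from zero. -/
theorem hasFDerivAt_lqNorm {q : ℝ} (hq : 1 < q) {x : Fin d → ℝ} (hx : x ≠ 0) :
    ∃ (L : (Fin d → ℝ) →L[ℝ] ℝ), HasFDerivAt (lqNorm (ENNReal.ofReal q)) L x ∧
      ∀ h : Fin d → ℝ, L h = 0 ↔ ∑ i, ph (q - 1) (x i) * h i = 0 := by
  have hq0 : 0 < q := by linarith
  have h1 : ∀ i : Fin d, HasFDerivAt (fun y : Fin d → ℝ => |y i| ^ q)
      ((q * |x i| ^ (q - 2) * x i) • (ContinuousLinearMap.proj i : (Fin d → ℝ) →L[ℝ] ℝ)) x := by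
    intro i
    have h2 := hasDerivAt_abs_rpow (x i) hq
    have h3 : HasFDerivAt (fun y : Fin d → ℝ => y i)
      (ContinuousLinearMap.proj i : (Fin d → ℝ) →L[ℝ] ℝ) x := hasFDerivAt_apply i x
    exact h2.comp_hasFDerivAt x h3
  have h2 : HasFDerivAt (fun y : Fin d → ℝ => ∑ i, |y i| ^ q)
      (∑ i, (q * |x i| ^ (q - 2) * x i) • (ContinuousLinearMap.proj i : (Fin d → ℝ) →L[ℝ] ℝ)) x :=
    HasFDerivAt.fun_sum fun i _ => h1 i
  have hpos : 0 < ∑ i, |x i| ^ q := by
    obtain ⟨i, hi⟩ := Function.ne_iff.1 hx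
    exact Finset.sum_pos' (fun j _ => Real.rpow_nonneg (abs_nonneg _) _)
      ⟨i, Finset.mem_univ i, Real.rpow_pos_of_pos (abs_pos.2 hi) _⟩
  have h3 := h2.rpow_const (p := 1 / q) (Or.inl hpos.ne')
  have h4 : (lqNorm (ENNReal.ofReal q) : (Fin d → ℝ) → ℝ) =
      fun y => (∑ i, |y i| ^ q) ^ (1 / q) := by
    funext y
    exact lqNorm_eq hq0 y
  rw [← h4] at h3
  refine ⟨_, h3, ?_⟩
  · intro h
    have h5 : (∑ i, (q * |x i| ^ (q - 2) * x i) •
        (ContinuousLinearMap.proj i : (Fin d → ℝ) →L[ℝ] ℝ)) h =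
        q * ∑ i, ph (q - 1) (x i) * h i := by
      rw [ContinuousLinearMap.sum_apply, Finset.mul_sum]
      apply Finset.sum_congr rfl
      intro i _
      unfold ph
      rw [show q - 1 - 1 = q - 2 by ring]
      simp only [ContinuousLinearMap.smul_apply, ContinuousLinearMap.proj_apply, smul_eq_mul]
      ring
    rw [ContinuousLinearMap.smul_apply, h5, smul_eq_mul]
    have h6 : 1 / q * (∑ i, |x i| ^ q) ^ (1 / q - 1) ≠ 0 :=
      mul_ne_zero (by positivity) (Real.rpow_pos_of_pos hpos _).ne'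
    constructor
    · intro h7
      rcases mul_eq_zero.1 h7 with h8 | h8
      · exact absurd h8 h6
      · rcases mul_eq_zero.1 h8 with h9 | h9
        · exact absurd h9 hq0.ne'
        · exact h9
    · intro h7
      rw [h7, mul_zero, mul_zero]

theorem differentiableAt_lqNorm {q : ℝ} (hq : 1 < q) {x : Fin d → ℝ} (hx : x ≠ 0) :
    DifferentiableAt ℝ (lqNorm (ENNReal.ofReal q)) x := by
  obtain ⟨L, hL, -⟩ := hasFDerivAt_lqNorm hq hx
  exact hL.differentiableAt

theorem fderiv_lqNorm_eq_zero {q : ℝ} (hq : 1 < q) {x : Fin d → ℝ} (hx : x ≠ 0)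
    (h : Fin d → ℝ) : fderiv ℝ (lqNorm (ENNReal.ofReal q)) x h = 0 ↔
      ∑ i, ph (q - 1) (x i) * h i = 0 := by
  obtain ⟨L, hL, hL0⟩ := hasFDerivAt_lqNorm hq hx
  rw [hL.fderiv]
  exact hL0 h

/-- In a connected graph there are parent and rank functions. -/
theorem exists_parent {V : Type*} {K : SimpleGraph V} (hK : K.Connected) (v0 : V) :
    ∃ (par : V → V) (rk : V → ℕ), ∀ v, v ≠ v0 → K.Adj v (par v) ∧ rk (par v) < rk v := by
  have h : ∀ v, v ≠ v0 → ∃ u, K.Adj v u ∧ K.dist u v0 < K.dist v v0 := by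
    intro v hv
    obtain ⟨w, hw⟩ := hK.exists_walk_length_eq_dist v v0
    cases w with
    | nil => exact absurd rfl hv
    | @cons _ u _ hvu w' =>
      refine ⟨u, hvu, ?_⟩
      have h1 := SimpleGraph.dist_le w'
      rw [SimpleGraph.Walk.length_cons] at hw
      omega
  classical
  refine ⟨fun v => if hv : v ≠ v0 then (h v hv).choose else v, fun v => K.dist v v0, ?_⟩
  intro v hv
  simp only [dif_pos hv]
  exact (h v hv).choose_spec

/-- One placement which is infinitesimally rigid for all members of a finite family of unions of `d`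
edge-disjoint connected spanning graphs. -/
theorem exists_family {V : Type*} [Finite V] [Nonempty V] {J : Type*} [Finite J] {s : ℝ}
    (hs : ∀ m : ℤ, (m : ℝ) ≠ s) (K : J → Fin d → SimpleGraph V)
    (hconn : ∀ j i, (K j i).Connected) (hdisj : ∀ j i i', i ≠ i' → Disjoint (K j i) (K j i')) :
    ∃ p : V → Fin d → ℝ, (∀ v w k, v ≠ w → p v k ≠ p w k) ∧
      ∀ j, ∀ m : V → Fin d → ℝ, (∀ i v w, (K j i).Adj v w →
        ∑ k, ph s (p v k - p w k) * (m v k - m w k) = 0) → ∀ v w, m v = m w := by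
  classical
  have := Fintype.ofFinite V
  have := Fintype.ofFinite J
  obtain ⟨v0⟩ := ‹Nonempty V›
  choose par rk hpar using fun j i => exists_parent (hconn j i) v0
  have hT : ∀ j, Trees v0 (par j) (rk j) := by
    intro j
    refine ⟨fun i v hv => (hpar j i v hv).2, ?_⟩
    intro i v i' w hv hw h
    have h1 := (hpar j i v hv).1
    have h2 := (hpar j i' w hw).1
    by_cases hi : i = i'
    · subst hi
      refine ⟨rfl, ?_⟩
      rcases Sym2.eq_iff.1 h with ⟨h3, -⟩ | ⟨h3, h4⟩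
      · exact h3
      · have h5 := (hpar j i v hv).2
        have h6 := (hpar j i w hw).2
        rw [← h3] at h6
        rw [h4] at h5
        exact absurd h5 (not_lt.2 h6.le)
    · exfalso
      have h3 := hdisj j i i' hi
      rw [SimpleGraph.disjoint_left] at h3
      apply h3 _ _ h1
      have h4 : s(v, par j i v) ∈ (K j i').edgeSet := by
        rw [h]
        exact h2
      exact h4
  -- a large number
  obtain ⟨x1, hx1⟩ : ∃ x1 : ℝ, ∀ ab : (Fin d × V) × (Fin d × V), tt ab.1 + tt ab.2 < x1 := by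
    obtain ⟨M, hM⟩ := (Set.finite_range
      (fun ab : (Fin d × V) × (Fin d × V) => (tt ab.1 + tt ab.2 : ℝ))).bddAbove
    exact ⟨M + 1, fun ab => lt_of_le_of_lt (hM ⟨ab, rfl⟩) (by linarith)⟩
  have hev : ∀ᶠ x in 𝓝[≠] x1, ∀ j : J,
      (MM s (par j) x : Matrix (Fin d × {v : V // v ≠ v0}) _ ℝ).det ≠ 0 := by
    rw [eventually_all]
    intro j
    exact det_eventually_ne (hT j) hs (fun h => hx1 ((h.2, h.1.2.1), (h.2, par j h.1.1 h.1.2.1)))
  have hdom : ∀ᶠ x in 𝓝[≠] x1, ∀ ab : (Fin d × V) × (Fin d × V), tt ab.1 + tt ab.2 < x := by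
    rw [eventually_all]
    intro h
    exact (eventually_gt_nhds (hx1 h)).filter_mono nhdsWithin_le_nhds
  obtain ⟨x, h1, h2⟩ := (hev.and hdom).exists
  refine ⟨place x, ?_, ?_⟩
  · intro v w k hvw
    rw [← sub_ne_zero, place_sub]
    apply mul_ne_zero
    · rw [sub_ne_zero]
      intro h
      exact hvw (Prod.ext_iff.1 (tt_inj h)).2
    · exact (sub_pos.2 (h2 ((k, v), (k, w)))).ne'
  · intro j m hm
    exact const_of_det (h1 j) m (fun i v hv => hm i v (par j i v) (hpar j i v hv).1)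

/-- One placement which is infinitesimally rigid in `ℓ_q^d` for all members of a finite family of
graphs. -/
theorem exists_rigid {V : Type*} [Finite V] [Nonempty V] (hd : 1 ≤ d) {J : Type*} [Finite J]
    {q : ℝ} (hq : 1 < q) (hqn : ∀ m : ℤ, (m : ℝ) ≠ q) (G : J → SimpleGraph V)
    (K : J → Fin d → SimpleGraph V) (hKG : ∀ j i, K j i ≤ G j)
    (hconn : ∀ j i, (K j i).Connected) (hdisj : ∀ j i i', i ≠ i' → Disjoint (K j i) (K j i')) :
    ∃ p : V → Fin d → ℝ, ∀ j, Rigid (ENNReal.ofReal q) (G j) p := by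
  have hs : ∀ m : ℤ, (m : ℝ) ≠ q - 1 := by
    intro m h
    apply hqn (m + 1)
    push_cast
    linarith
  obtain ⟨p, hp, hr⟩ := exists_family hs K hconn hdisj
  have hne : ∀ v w, v ≠ w → p v - p w ≠ 0 := by
    intro v w hvw h
    have h1 := congrFun h ⟨0, hd⟩
    rw [Pi.sub_apply, Pi.zero_apply, sub_eq_zero] at h1
    exact hp v w _ hvw h1
  refine ⟨p, fun j => ⟨fun u v huv => differentiableAt_lqNorm hq (hne u v huv.ne), ?_⟩⟩
  intro m hm
  apply hr j m
  intro i v w hvw
  have h1 := hm v w (hKG j i hvw)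
  rw [fderiv_lqNorm_eq_zero hq (hne v w hvw.ne)] at h1
  exact h1

end Pool.Agent.H568R3
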