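import Mathlib

/-!
# Bar-joint frameworks in `ℓ_q^d`
-/

set_option autoImplicit false

namespace Pool.Agent.H568R3

open scoped ENNReal

/-- The `ℓ_q` norm on `ℝ^d`. -/
noncomputable def lqNorm {d : ℕ} (q : ℝ≥0∞) (x : Fin d → ℝ) : ℝ :=
  ‖(WithLp.toLp q x : PiLp q fun _ : Fin d => ℝ)‖

variable {V : Type*} {d : ℕ}

/-- The placement `p` of `G` is well-positioned: the norm is differentiable at `p u - p v` for every
edge `uv`. -/
def WellPositioned (q : ℝ≥0∞) (G : SimpleGraph V) (p : V → Fin d → ℝ) : Prop :=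
  ∀ u v, G.Adj u v → DifferentiableAt ℝ (lqNorm q) (p u - p v)

/-- The map `m` is an infinitesimal flex of the framework `(G, p)`. -/
def IsFlex (q : ℝ≥0∞) (G : SimpleGraph V) (p m : V → Fin d → ℝ) : Prop :=
  ∀ u v, G.Adj u v → fderiv ℝ (lqNorm q) (p u - p v) (m u - m v) = 0

/-- The framework `(G, p)` is (well-positioned and) infinitesimally rigid in `ℓ_q^d`, `q ≠ 2`: all
infinitesimal flexes are constant. -/
def Rigid (q : ℝ≥0∞) (G : SimpleGraph V) (p : V → Fin d → ℝ) : Prop :=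
  WellPositioned q G p ∧ ∀ m, IsFlex q G p m → ∀ u v, m u = m v

/-- The framework `(G, p)` is redundantly rigid in `ℓ_q^d`, `q ≠ 2`: it is rigid, and it stays rigid
after the deletion of any edge. -/
def RedundantlyRigid (q : ℝ≥0∞) (G : SimpleGraph V) (p : V → Fin d → ℝ) : Prop :=
  Rigid q G p ∧ ∀ e ∈ G.edgeSet, Rigid q (G.deleteEdges {e}) p

end Pool.Agent.H568R3
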