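import Mathlib

/-!
# Linear independence of products of non-integral powers of different linear factors
-/

set_option autoImplicit false

namespace Pool.Agent.H568R3

open Filter Topology

section

variable {ι : Type*}

/-- The product of the `s`-th powers of the linear factors with index in `T`. -/
noncomputable def gT (s : ℝ) (ζ : ι → ℝ) (T : Finset ι) (x : ℝ) : ℝ := ∏ h ∈ T, (x - ζ h) ^ s

theorem analyticAt_gT (s : ℝ) (ζ : ι → ℝ) (T : Finset ι) (x : ℝ) (hx : ∀ h ∈ T, ζ h < x) :
    AnalyticAt ℝ (gT s ζ T) x := by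
  unfold gT
  apply Finset.analyticAt_fun_prod
  intro h hh
  have h1 : AnalyticAt ℝ (fun y : ℝ => y ^ s) (x - ζ h) :=
    (Real.contDiffAt_rpow_const_of_ne (sub_pos.2 (hx h hh)).ne').analyticAt
  have h2 : AnalyticAt ℝ (fun y : ℝ => y - ζ h) x := analyticAt_id.sub analyticAt_const
  exact AnalyticAt.comp (g := fun y : ℝ => y ^ s) (f := fun y : ℝ => y - ζ h) h1 h2

theorem analyticAt_sum_gT (s : ℝ) (ζ : ι → ℝ) (S : Finset ι) (c : Finset ι → ℝ) (x : ℝ)
    (hx : ∀ h ∈ S, ζ h < x) :
    AnalyticAt ℝ (fun x => ∑ T ∈ S.powerset, c T * gT s ζ T x) x := by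
  apply Finset.analyticAt_fun_sum
  intro T hT
  exact analyticAt_const.mul
    (analyticAt_gT s ζ T x fun h hh => hx h (Finset.mem_powerset.1 hT hh))

/-- `A + (x - z)^s B = 0` to the right of `z` with `A`, `B` analytic at `z` and `s` not an integer
forces `A` and `B` to vanish near `z`. -/
theorem split_aux {s z : ℝ} (hs : ∀ m : ℤ, (m : ℝ) ≠ s) {A B : ℝ → ℝ} (hA : AnalyticAt ℝ A z)
    (hB : AnalyticAt ℝ B z) (h : ∀ᶠ x in 𝓝[>] z, A x + (x - z) ^ s * B x = 0) :
    (∀ᶠ x in 𝓝 z, A x = 0) ∧ (∀ᶠ x in 𝓝 z, B x = 0) := by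
  have hBz : ∀ᶠ x in 𝓝 z, B x = 0 := by
    by_contra hBn
    obtain ⟨m, b, hb, hb0, hbe⟩ := hB.exists_eventuallyEq_pow_smul_nonzero_iff.2 hBn
    have hbe' := hbe.filter_mono (nhdsWithin_le_nhds (s := Set.Ioi z))
    have hpos : ∀ᶠ x in 𝓝[>] z, z < x := self_mem_nhdsWithin
    have hbne : ∀ᶠ x in 𝓝[>] z, b x ≠ 0 :=
      (hb.continuousAt.eventually_ne hb0).filter_mono nhdsWithin_le_nhds
    by_cases hAz : ∀ᶠ x in 𝓝 z, A x = 0
    · have hAz' := hAz.filter_mono (nhdsWithin_le_nhds (s := Set.Ioi z))
      obtain ⟨x, h1, h2, h3, h4, h5⟩ :=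
        (h.and (hbe'.and (hpos.and (hbne.and hAz')))).exists
      rw [h5, zero_add, h2, smul_eq_mul] at h1
      have h6 : 0 < x - z := sub_pos.2 h3
      exact (mul_ne_zero (Real.rpow_pos_of_pos h6 s).ne' (mul_ne_zero (pow_pos h6 m).ne' h4)) h1
    · obtain ⟨k, a, ha, ha0, hae⟩ := hA.exists_eventuallyEq_pow_smul_nonzero_iff.2 hAz
      have hae' := hae.filter_mono (nhdsWithin_le_nhds (s := Set.Ioi z))
      have hat : Tendsto a (𝓝[>] z) (𝓝 (a z)) := ha.continuousAt.tendsto.mono_left
        nhdsWithin_le_nhds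
      have hbt : Tendsto b (𝓝[>] z) (𝓝 (b z)) := hb.continuousAt.tendsto.mono_left
        nhdsWithin_le_nhds
      -- the basic identity with real exponents
      have key : ∀ᶠ x in 𝓝[>] z, a x + (x - z) ^ (s + m - k) * b x = 0 := by
        filter_upwards [h, hbe', hae', hpos] with x h1 h2 h3 h4
        have h6 : 0 < x - z := sub_pos.2 h4
        rw [h2, h3, smul_eq_mul, smul_eq_mul, ← Real.rpow_natCast, ← Real.rpow_natCast] at h1
        have h7 : (x - z) ^ (k : ℝ) * (a x + (x - z) ^ (s + m - k) * b x) = 0 := by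
          rw [mul_add, ← mul_assoc, ← Real.rpow_add h6]
          rw [← mul_assoc, ← Real.rpow_add h6] at h1
          rw [show (k : ℝ) + (s + m - k) = s + m by ring]
          exact h1
        rcases mul_eq_zero.1 h7 with h8 | h8
        · exact absurd h8 (Real.rpow_pos_of_pos h6 _).ne'
        · exact h8
      have hsub : Tendsto (fun x : ℝ => x - z) (𝓝[>] z) (𝓝[>] 0) := by
        rw [tendsto_nhdsWithin_iff]
        constructor
        · have : Tendsto (fun x : ℝ => x - z) (𝓝 z) (𝓝 (z - z)) :=
            (continuous_id.sub continuous_const).tendsto z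
          rw [sub_self] at this
          exact this.mono_left nhdsWithin_le_nhds
        · filter_upwards [hpos] with x hx
          exact sub_pos.2 hx
      rcases lt_trichotomy (s + m - k) 0 with he | he | he
      · -- multiply by the opposite power
        have key2 : ∀ᶠ x in 𝓝[>] z, (x - z) ^ (-(s + m - k)) * a x + b x = 0 := by
          filter_upwards [key, hpos] with x h1 h4
          have h6 : 0 < x - z := sub_pos.2 h4
          have h7 : (x - z) ^ (s + m - k) * ((x - z) ^ (-(s + m - k)) * a x + b x) = 0 := by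
            rw [mul_add, ← mul_assoc, ← Real.rpow_add h6, add_neg_cancel, Real.rpow_zero, one_mul]
            exact h1
          rcases mul_eq_zero.1 h7 with h8 | h8
          · exact absurd h8 (Real.rpow_pos_of_pos h6 _).ne'
          · exact h8
        have h0 : Tendsto (fun x : ℝ => (x - z) ^ (-(s + m - k))) (𝓝[>] z) (𝓝 0) := by
          have h1 : Tendsto (fun y : ℝ => y ^ (-(s + m - k))) (𝓝 0) (𝓝 (0 ^ (-(s + m - k)))) :=
            (Real.continuousAt_rpow_const 0 _ (Or.inr (by linarith))).tendsto
          rw [Real.zero_rpow (by linarith)] at h1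
          exact (h1.mono_left nhdsWithin_le_nhds).comp hsub
        have h2 : Tendsto (fun x : ℝ => (x - z) ^ (-(s + m - k)) * a x + b x) (𝓝[>] z)
            (𝓝 (0 * a z + b z)) := (h0.mul hat).add hbt
        have h3 : Tendsto (fun x : ℝ => (x - z) ^ (-(s + m - k)) * a x + b x) (𝓝[>] z)
            (𝓝 0) := tendsto_const_nhds.congr' (by
              filter_upwards [key2] with x hx
              exact hx.symm)
        have h4 := tendsto_nhds_unique h2 h3
        rw [zero_mul, zero_add] at h4
        exact hb0 h4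
      · apply hs (k - m)
        push_cast
        linarith
      · have h0 : Tendsto (fun x : ℝ => (x - z) ^ (s + m - k)) (𝓝[>] z) (𝓝 0) := by
          have h1 : Tendsto (fun y : ℝ => y ^ (s + m - k)) (𝓝 0) (𝓝 (0 ^ (s + m - k))) :=
            (Real.continuousAt_rpow_const 0 _ (Or.inr he.le)).tendsto
          rw [Real.zero_rpow he.ne'] at h1
          exact (h1.mono_left nhdsWithin_le_nhds).comp hsub
        have h2 : Tendsto (fun x : ℝ => a x + (x - z) ^ (s + m - k) * b x) (𝓝[>] z)
            (𝓝 (a z + 0 * b z)) := hat.add (h0.mul hbt)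
        have h3 : Tendsto (fun x : ℝ => a x + (x - z) ^ (s + m - k) * b x) (𝓝[>] z)
            (𝓝 0) := tendsto_const_nhds.congr' (by
              filter_upwards [key] with x hx
              exact hx.symm)
        have h4 := tendsto_nhds_unique h2 h3
        rw [zero_mul, add_zero] at h4
        exact ha0 h4
  refine ⟨?_, hBz⟩
  rw [← hA.frequently_zero_iff_eventually_zero]
  have h1 : ∀ᶠ x in 𝓝[>] z, A x = 0 := by
    filter_upwards [h, hBz.filter_mono (nhdsWithin_le_nhds (s := Set.Ioi z))] with x h1 h2
    rw [h2, mul_zero, add_zero] at h1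
    exact h1
  have h2 : ∃ᶠ x in 𝓝[>] z, A x = 0 := h1.frequently
  exact h2.filter_mono (nhdsWithin_mono z fun x hx => ne_of_gt hx)

theorem domain_preconnected (ζ : ι → ℝ) (S : Finset ι) :
    IsPreconnected {x : ℝ | ∀ h ∈ S, ζ h < x} := by
  apply Set.OrdConnected.isPreconnected
  constructor
  intro x hx y _ w hw h hh
  exact (hx h hh).trans_le hw.1

/-- **Linear independence**: if `s` is not an integer and the numbers `ζ h` are different, then the
functions `∏_{h ∈ T} (x - ζ h)^s`, `T` a subset of `S`, are linearly independent to the right of all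
the numbers `ζ h`. -/
theorem lin_indep [DecidableEq ι] {s : ℝ} (hs : ∀ m : ℤ, (m : ℝ) ≠ s) (ζ : ι → ℝ)
    (hζ : Function.Injective ζ) (S : Finset ι) :
    ∀ c : Finset ι → ℝ,
      (∀ x : ℝ, (∀ h ∈ S, ζ h < x) → ∑ T ∈ S.powerset, c T * gT s ζ T x = 0) →
      ∀ T ⊆ S, c T = 0 := by
  induction S using Finset.induction_on_max_value ζ with
  | empty =>
    intro c hc T hT
    have h1 := hc 0 (by simp)
    rw [Finset.subset_empty] at hT
    subst hT
    simpa [gT] using h1
  | insert a S ha hmax ih =>
    intro c hc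
    have hlt : ∀ h ∈ S, ζ h < ζ a := by
      intro h hh
      refine lt_of_le_of_ne (hmax h hh) fun he => ?_
      rw [hζ he] at hh
      exact ha hh
    have hA := fun x => analyticAt_sum_gT s ζ S c x
    have hB := fun x => analyticAt_sum_gT s ζ S (fun T => c (insert a T)) x
    have hsplit : ∀ᶠ x in 𝓝[>] (ζ a), (∑ T ∈ S.powerset, c T * gT s ζ T x) +
        (x - ζ a) ^ s * (∑ T ∈ S.powerset, c (insert a T) * gT s ζ T x) = 0 := by
      filter_upwards [self_mem_nhdsWithin] with x hx
      have h1 := hc x (by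
        intro h hh
        rcases Finset.mem_insert.1 hh with rfl | hh
        · exact hx
        · exact (hlt h hh).trans hx)
      rw [Finset.sum_powerset_insert ha] at h1
      rw [← h1, Finset.mul_sum]
      congr 1
      apply Finset.sum_congr rfl
      intro T hT
      have haT : a ∉ T := fun h => ha (Finset.mem_powerset.1 hT h)
      unfold gT
      rw [Finset.prod_insert haT]
      ring
    obtain ⟨hA0, hB0⟩ := split_aux hs (hA (ζ a) hlt) (hB (ζ a) hlt) hsplit
    have hAall := AnalyticOnNhd.eqOn_zero_of_preconnected_of_eventuallyEq_zero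
      (fun x hx => hA x hx) (domain_preconnected ζ S) (z₀ := ζ a) hlt hA0
    have hBall := AnalyticOnNhd.eqOn_zero_of_preconnected_of_eventuallyEq_zero
      (fun x hx => hB x hx) (domain_preconnected ζ S) (z₀ := ζ a) hlt hB0
    have h1 := ih c (fun x hx => hAall hx)
    have h2 := ih (fun T => c (insert a T)) (fun x hx => hBall hx)
    intro T hT
    by_cases haT : a ∈ T
    · have h3 := h2 (T.erase a) (by
        intro x hx
        rcases Finset.mem_insert.1 (hT (Finset.mem_of_mem_erase hx)) with rfl | h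
        · exact absurd rfl (Finset.ne_of_mem_erase hx)
        · exact h)
      rwa [Finset.insert_erase haT] at h3
    · refine h1 T ?_
      intro x hx
      rcases Finset.mem_insert.1 (hT hx) with rfl | h
      · exact absurd hx haT
      · exact h

end

end Pool.Agent.H568R3
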